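import Mathlib

/-!
# A Dirichlet-type improvement for images of a point in an attractor

The five maps `x ↦ (x + i + √2 j)/2` (`i, j ∈ {0, 1}`) and `x ↦ (1 + √2) - x/2` of the real line
have attractor `X = [0, 1 + √2]`, and for `z = 0` and every `0 < s < 2` every point of `X` lies in
`W_s(z)`.
-/

namespace Pool.Agent.Results.MP_521650_an.DirichletImprovement

/-- The composition `φ_{a_1} ∘ ⋯ ∘ φ_{a_n}` along a finite word. -/
def comp {l : ℕ} (φ : Fin l → ℝ → ℝ) : List (Fin l) → ℝ → ℝ
  | [] => id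
  | a :: w => φ a ∘ comp φ w

/-- `φ` is an iterated function system on `ℝ` (at least two injective contractions) and `X` is its
attractor (a nonempty compact set with `X = ⋃ φ_i(X)`). -/
structure IsIFSWithAttractor {l : ℕ} (φ : Fin l → ℝ → ℝ) (X : Set ℝ) : Prop where
  two_le : 2 ≤ l
  injective : ∀ i, Function.Injective (φ i)
  contraction : ∀ i, ∃ K : NNReal, K < 1 ∧ LipschitzWith K (φ i)
  nonempty : X.Nonempty
  compact : IsCompact X
  self_similar : X = ⋃ i, φ i '' X

/-- `W_s(z)`: the points `x` with `|x - φ_a(z)| ≤ Diam(φ_a(X))^s` for infinitely many words `a`. -/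
def W {l : ℕ} (φ : Fin l → ℝ → ℝ) (X : Set ℝ) (s : ℝ) (z : ℝ) : Set ℝ :=
  {x | {a : List (Fin l) | |x - comp φ a z| ≤ Metric.diam (comp φ a '' X) ^ s}.Infinite}

/-! ### The arithmetic core -/

/-- A window of `q` consecutive multiples of `θ` is `2/q`-dense modulo one. -/
lemma window (θ : ℝ) (p : ℤ) (q : ℕ) (hq : 0 < q) (hpq : IsCoprime p (q : ℤ))
    (h : |θ - p / q| < 1 / (q : ℝ) ^ 2) (y : ℝ) (J0 : ℕ) :
    ∃ (I : ℤ) (J : ℕ), J0 ≤ J ∧ J < J0 + q ∧ |I + θ * J - y| ≤ 2 / q := by
  have hq' : (0 : ℝ) < q := by exact_mod_cast hq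
  set y' : ℝ := y - θ * J0 with hy'
  set m : ℤ := ⌊(q : ℝ) * y'⌋ with hm
  -- choose `t` with `p t ≡ m (mod q)`
  obtain ⟨u, v, huv⟩ := hpq
  have hqz : (0 : ℤ) < q := by exact_mod_cast hq
  set t : ℤ := (m * u) % q with ht
  have ht0 : 0 ≤ t := Int.emod_nonneg _ hqz.ne'
  have htq : t < q := Int.emod_lt_of_pos _ hqz
  have hdvd : (q : ℤ) ∣ m - p * t := by
    have h1 : (q : ℤ) ∣ (m * u) - t := by
      rw [ht]
      exact Int.dvd_self_sub_emod
    have h2 : m - p * t = m * v * q + p * ((m * u) - t) := by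
      linear_combination (-m) * huv
    rw [h2]
    exact dvd_add (Dvd.intro_left _ rfl) (Dvd.dvd.mul_left h1 _)
  obtain ⟨I, hI⟩ := hdvd
  refine ⟨I, J0 + t.toNat, by omega, by omega, ?_⟩
  have hcast : ((J0 + t.toNat : ℕ) : ℝ) = J0 + (t : ℝ) := by
    push_cast
    congr 1
    have : ((t.toNat : ℤ) : ℝ) = (t : ℝ) := by rw [Int.toNat_of_nonneg ht0]
    exact_mod_cast this
  rw [hcast]
  have hIr : (m : ℝ) - p * t = q * I := by exact_mod_cast hI
  have hIr2 : (I : ℝ) = (m - p * t) / q := by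
    rw [hIr]
    field_simp
  have e : (I : ℝ) + θ * (J0 + t) - y = ((m : ℝ) / q - y') + (θ - p / q) * t := by
    rw [hIr2, hy']
    field_simp
    ring
  rw [e]
  have b1 : |(m : ℝ) / q - y'| ≤ 1 / q := by
    have f1 := Int.floor_le ((q : ℝ) * y')
    have f2 := Int.lt_floor_add_one ((q : ℝ) * y')
    rw [← hm] at f1 f2
    have e2 : (m : ℝ) / q - y' = (m - q * y') / q := by field_simp
    rw [e2, abs_div, abs_of_pos hq']
    gcongr
    rw [abs_le]
    constructor <;> linarith
  have b2 : |(θ - p / q) * t| ≤ 1 / q := by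
    rw [abs_mul]
    have ht' : |(t : ℝ)| ≤ q := by
      rw [abs_of_nonneg (by exact_mod_cast ht0)]
      exact_mod_cast htq.le
    calc |θ - p / q| * |(t : ℝ)| ≤ (1 / (q : ℝ) ^ 2) * q := by
          gcongr
      _ = 1 / q := by field_simp
  calc |(m : ℝ) / q - y' + (θ - p / q) * t| ≤ |(m : ℝ) / q - y'| + |(θ - p / q) * t| :=
        abs_add_le _ _
    _ ≤ 1 / q + 1 / q := add_le_add b1 b2
    _ = 2 / q := by ring

/-- There are coprime approximations `p/q` with arbitrarily large `q`. -/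
lemma exists_approx (θ : ℝ) (hθ : Irrational θ) (N : ℕ) :
    ∃ (p : ℤ) (q : ℕ), N ≤ q ∧ 0 < q ∧ IsCoprime p (q : ℤ) ∧ |θ - p / q| < 1 / (q : ℝ) ^ 2 := by
  have hinf := Real.infinite_rat_abs_sub_lt_one_div_den_sq_of_irrational hθ
  by_contra hcon
  push Not at hcon
  apply hinf
  -- all such rationals have denominator `< N` and bounded size
  have hsub : {r : ℚ | |θ - r| < 1 / (r.den : ℝ) ^ 2} ⊆
      (fun z : ℤ × ℕ => (z.1 : ℚ) / (z.2 : ℚ)) ''
        ((Set.Icc (-(⌈(|θ| + 1) * N⌉ : ℤ)) ⌈(|θ| + 1) * N⌉) ×ˢ (Set.Iio N)) := by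
    intro r hr
    have hr' : |θ - r| < 1 / (r.den : ℝ) ^ 2 := hr
    have hden : (0 : ℝ) < r.den := by exact_mod_cast r.den_pos
    have hden1 : (1 : ℝ) ≤ r.den := by exact_mod_cast r.den_pos
    have hlt : r.den < N := by
      by_contra hge
      push Not at hge
      have hcop : IsCoprime r.num (r.den : ℤ) := by
        have := r.reduced
        rw [Int.isCoprime_iff_gcd_eq_one]
        rw [Int.gcd, Int.natAbs_natCast]
        exact this
      have h1 := hcon r.num r.den hge r.den_pos hcop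
      have e : (r.num : ℝ) / r.den = (r : ℝ) := by
        rw [Rat.cast_def]
      rw [e] at h1
      exact absurd hr' (not_lt.mpr h1)
    refine ⟨(r.num, r.den), ?_, Rat.num_div_den r⟩
    refine Set.mem_prod.mpr ⟨?_, hlt⟩
    have hbound : |(r.num : ℝ)| ≤ (|θ| + 1) * N := by
      have e : (r.num : ℝ) = (r : ℝ) * r.den := by
        rw [Rat.cast_def]
        field_simp
      rw [e, abs_mul, abs_of_pos hden]
      have h2 : |(r : ℝ)| ≤ |θ| + 1 := by
        have h3 : |(r : ℝ)| ≤ |θ| + |θ - r| := by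
          have := abs_sub_abs_le_abs_sub (r : ℝ) θ
          rw [abs_sub_comm] at this
          linarith
        have h4 : 1 / (r.den : ℝ) ^ 2 ≤ 1 := by
          rw [div_le_one (by positivity)]
          nlinarith
        linarith
      have h5 : (r.den : ℝ) ≤ N := by exact_mod_cast hlt.le
      exact mul_le_mul h2 h5 hden.le (by positivity)
    rw [abs_le] at hbound
    constructor
    · have h6 := Int.le_ceil ((|θ| + 1) * (N : ℝ))
      have : (-(⌈(|θ| + 1) * (N : ℝ)⌉ : ℤ) : ℝ) ≤ (r.num : ℝ) := by linarith [hbound.1]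
      exact_mod_cast this
    · have h6 := Int.le_ceil ((|θ| + 1) * (N : ℝ))
      have : (r.num : ℝ) ≤ (⌈(|θ| + 1) * (N : ℝ)⌉ : ℝ) := by linarith [hbound.2]
      exact_mod_cast this
  exact Set.Finite.subset (Set.Finite.image _ ((Set.finite_Icc _ _).prod (Set.finite_Iio N))) hsub


/-- The arithmetic core: every interior point of `[0, 1 + θ]` is very well approximated. -/
lemma core (θ : ℝ) (hθ : 0 < θ) (hirr : Irrational θ) (x : ℝ) (hx0 : 0 < x) (hx1 : x < 1 + θ)
    (s : ℝ) (hs : s < 2) (N : ℕ) :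
    ∃ n : ℕ, N ≤ n ∧ ∃ I J : ℕ, I < 2 ^ n ∧ J < 2 ^ n ∧
      |x - (I + θ * J) / 2 ^ n| ≤ ((1 + θ) / 2 ^ n) ^ s := by
  set u : ℝ := x / (1 + θ) with hu
  have hu0 : 0 < u := by positivity
  have hu1 : u < 1 := by rw [hu, div_lt_one (by linarith)]; exact hx1
  have hxu : x = u * (1 + θ) := by rw [hu]; field_simp
  set c : ℝ := min (u / (1 + θ)) (1 - u) with hc
  have hc0 : 0 < c := lt_min (by positivity) (by linarith)
  have hc1 : c ≤ u / (1 + θ) := min_le_left _ _
  have hc2 : c ≤ 1 - u := min_le_right _ _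
  have hclt : c < 1 := by linarith
  -- exponents
  set s' : ℝ := max s 1 with hs'
  have hs'1 : 1 ≤ s' := le_max_right _ _
  have hss' : s ≤ s' := le_max_left _ _
  have hs'2 : s' < 2 := max_lt hs (by norm_num)
  set C : ℝ := 8 / c with hC
  have hC0 : 0 < C := by positivity
  -- choose the denominator
  have htend : Filter.Tendsto (fun q : ℕ => (q : ℝ) ^ (2 - s')) Filter.atTop Filter.atTop :=
    (tendsto_rpow_atTop (by linarith)).comp tendsto_natCast_atTop_atTop
  obtain ⟨N1, hN1⟩ := Filter.eventually_atTop.mp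
    (htend.eventually_ge_atTop (2 * C ^ (s' - 1)))
  obtain ⟨p, q, hq1, hq0, hcop, happ⟩ := exists_approx θ hirr (max N1 (2 ^ N))
  have hqN1 : N1 ≤ q := le_trans (le_max_left _ _) hq1
  have hqN : 2 ^ N ≤ q := le_trans (le_max_right _ _) hq1
  have hq : (0 : ℝ) < q := by exact_mod_cast hq0
  have hq1' : (1 : ℝ) ≤ q := by exact_mod_cast hq0
  have hlarge := hN1 q hqN1
  -- choose `n`
  have hex : ∃ n : ℕ, (q : ℝ) + 3 ≤ c * 2 ^ n := by
    obtain ⟨n, hn⟩ := pow_unbounded_of_one_lt ((q + 3) / c) (show (1 : ℝ) < 2 by norm_num)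
    refine ⟨n, ?_⟩
    rw [div_lt_iff₀ hc0] at hn
    linarith
  classical
  set n := Nat.find hex with hn
  have hn1 : (q : ℝ) + 3 ≤ c * 2 ^ n := Nat.find_spec hex
  have hn0 : n ≠ 0 := by
    intro h0
    rw [h0, pow_zero, mul_one] at hn1
    linarith
  have hn2 : c * 2 ^ n < 2 * (q + 3) := by
    have h1 : ¬ ((q : ℝ) + 3 ≤ c * 2 ^ (n - 1)) := Nat.find_min hex (by omega)
    push Not at h1
    have h2 : (2 : ℝ) ^ n = 2 * 2 ^ (n - 1) := by
      rw [← pow_succ']
      congr 1
      omega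
    rw [h2]
    linarith
  set T : ℝ := 2 ^ n with hT
  have hT0 : 0 < T := by positivity
  have hT1 : 1 ≤ T := one_le_pow₀ (by norm_num)
  have hTq : (q : ℝ) ≤ T := by
    calc (q : ℝ) ≤ q + 3 := by linarith
      _ ≤ c * T := hn1
      _ ≤ 1 * T := by gcongr
      _ = T := one_mul T
  have hTC : T ≤ C * q := by
    have h1 : c * T ≤ 8 * q := by linarith
    rw [hC, div_mul_eq_mul_div, le_div_iff₀ hc0]
    linarith
  have hNn : N ≤ n := by
    have h1 : (2 : ℝ) ^ N ≤ 2 ^ n := by
      calc (2 : ℝ) ^ N ≤ q := by exact_mod_cast hqN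
        _ ≤ 2 ^ n := hTq
    exact (pow_le_pow_iff_right₀ (by norm_num)).mp h1
  obtain ⟨I, J, hJ0, hJ1, hIJ⟩ := window θ p q hq0 hcop happ (T * x) ⌈u * T⌉₊
  have hJa : u * T ≤ J := by
    calc u * T ≤ (⌈u * T⌉₊ : ℝ) := Nat.le_ceil _
      _ ≤ J := by exact_mod_cast hJ0
  have hJb : (J : ℝ) < u * T + 1 + q := by
    have h1 : (⌈u * T⌉₊ : ℝ) < u * T + 1 := Nat.ceil_lt_add_one (by positivity)
    have h2 : (J : ℝ) < ⌈u * T⌉₊ + q := by exact_mod_cast hJ1
    linarith
  have h2q : 2 / (q : ℝ) ≤ 2 := by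
    rw [div_le_iff₀ hq]
    linarith
  have hIJ2 := abs_le.mp hIJ
  have hcT1 : (1 + θ) * (q + 3) ≤ u * T := by
    have h1 : (1 + θ) * c ≤ u := by
      rw [le_div_iff₀ (by linarith)] at hc1
      linarith
    calc (1 + θ) * (q + 3) ≤ (1 + θ) * (c * T) := by gcongr
      _ = ((1 + θ) * c) * T := by ring
      _ ≤ u * T := by gcongr
  have hcT2 : q + 3 ≤ (1 - u) * T := by
    calc (q : ℝ) + 3 ≤ c * T := hn1
      _ ≤ (1 - u) * T := by gcongr
  have hthT : 1 + θ ≤ T := by
    calc 1 + θ = (1 + θ) * 1 := (mul_one _).symm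
      _ ≤ (1 + θ) * (q + 3) := by
          apply mul_le_mul_of_nonneg_left _ (by linarith)
          linarith
      _ ≤ u * T := hcT1
      _ ≤ 1 * T := by gcongr
      _ = T := one_mul T
  have hI0 : 0 ≤ I := by
    have h1 : (0 : ℝ) ≤ I := by
      have h2 : (I : ℝ) ≥ T * x - θ * J - 2 / q := by linarith [hIJ2.1]
      have h3 : θ * J ≤ θ * (u * T + 1 + q) := by gcongr
      have h4 : T * x = u * T + θ * (u * T) := by rw [hxu]; ring
      have h5 : θ * (u * T + 1 + q) = θ * (u * T) + θ * (1 + q) := by ring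
      have h6 : (1 + θ) * (q + 3) = θ * (1 + q) + q + 3 + 2 * θ := by ring
      linarith
    exact_mod_cast h1
  obtain ⟨I', rfl⟩ := Int.eq_ofNat_of_zero_le hI0
  refine ⟨n, hNn, I', J, ?_, ?_, ?_⟩
  · have h1 : (I' : ℝ) < 2 ^ n := by
      have h2 : ((I' : ℤ) : ℝ) ≤ T * x - θ * J + 2 / q := by linarith [hIJ2.2]
      have h3 : θ * (u * T) ≤ θ * J := by gcongr
      have h4 : T * x = u * T + θ * (u * T) := by rw [hxu]; ring
      have h5 : ((I' : ℤ) : ℝ) = (I' : ℝ) := by push_cast; rfl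
      rw [h5] at h2
      have h7 : (1 - u) * T = T - u * T := by ring
      have h6 : (I' : ℝ) < T := by linarith
      exact h6
    exact_mod_cast h1
  · have h1 : (J : ℝ) < 2 ^ n := by
      have h6 : (J : ℝ) < T := by linarith
      exact h6
    exact_mod_cast h1
  · have h5 : ((I' : ℤ) : ℝ) = (I' : ℝ) := by push_cast; rfl
    rw [h5] at hIJ
    have e1 : x - (I' + θ * J) / T = -((I' + θ * J - T * x) / T) := by
      field_simp
      ring
    rw [e1, abs_neg, abs_div, abs_of_pos hT0]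
    have e2 : |(I' : ℝ) + θ * J - T * x| / T ≤ (2 / q) / T := by gcongr
    refine le_trans e2 ?_
    -- the right-hand side
    have e3 : (1 / T) ^ s' ≤ ((1 + θ) / T) ^ s := by
      by_cases hs0 : 0 ≤ s
      · calc (1 / T) ^ s' ≤ (1 / T) ^ s :=
              Real.rpow_le_rpow_of_exponent_ge (by positivity) (by rw [div_le_one hT0]; exact hT1)
                hss'
          _ ≤ ((1 + θ) / T) ^ s := by
              apply Real.rpow_le_rpow (by positivity) _ hs0
              gcongr
              linarith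
      · push Not at hs0
        have hb : (1 + θ) / T ≤ 1 := by
          rw [div_le_one hT0]
          exact hthT
        calc (1 / T) ^ s' ≤ 1 := by
              apply Real.rpow_le_one (by positivity) (by rw [div_le_one hT0]; exact hT1)
                (by linarith)
          _ ≤ ((1 + θ) / T) ^ s := by
              apply Real.one_le_rpow_of_pos_of_le_one_of_nonpos (by positivity) hb hs0.le
    refine le_trans ?_ e3
    have e4 : (1 / T) ^ s' = (1 / T ^ (s' - 1)) / T := by
      rw [Real.div_rpow zero_le_one hT0.le, Real.one_rpow]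
      have : T ^ s' = T ^ (s' - 1) * T := by
        rw [← Real.rpow_add_one hT0.ne']
        congr 1
        ring
      rw [this, div_div]
    rw [e4]
    apply div_le_div_of_nonneg_right _ hT0.le
    have hTp : 0 < T ^ (s' - 1) := Real.rpow_pos_of_pos hT0 _
    rw [div_le_div_iff₀ hq hTp, one_mul]
    calc 2 * T ^ (s' - 1) ≤ 2 * (C * q) ^ (s' - 1) := by
          gcongr
      _ = (2 * C ^ (s' - 1)) * (q : ℝ) ^ (s' - 1) := by
          rw [Real.mul_rpow hC0.le hq.le]
          ring
      _ ≤ (q : ℝ) ^ (2 - s') * (q : ℝ) ^ (s' - 1) := by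
          gcongr
      _ = q := by
          rw [← Real.rpow_add hq]
          have : 2 - s' + (s' - 1) = 1 := by ring
          rw [this, Real.rpow_one]


/-! ### The iterated function system -/

/-- `θ = √2`. -/
noncomputable def th : ℝ := Real.sqrt 2

lemma th_pos : 0 < th := Real.sqrt_pos.mpr (by norm_num)

/-- The five maps: `φ_0, …, φ_3` are `(x + i + θ j)/2` and `φ_4` is `(1 + θ) - x/2`. -/
noncomputable def phi : Fin 5 → ℝ → ℝ :=
  ![fun x => (x + 0 + th * 0) / 2, fun x => (x + 1 + th * 0) / 2,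
    fun x => (x + 0 + th * 1) / 2, fun x => (x + 1 + th * 1) / 2,
    fun x => (1 + th) - x / 2]

/-- The attractor. -/
noncomputable def X : Set ℝ := Set.Icc 0 (1 + th)

lemma phi_affine (i : Fin 5) : ∃ e c : ℝ, |e| = 1 / 2 ∧ ∀ x, phi i x = e * x + c := by
  fin_cases i
  · exact ⟨1 / 2, 0, by norm_num, fun x => by simp [phi]; ring⟩
  · exact ⟨1 / 2, 1 / 2, by norm_num, fun x => by simp [phi]; ring⟩
  · exact ⟨1 / 2, th / 2, by norm_num, fun x => by simp [phi]; ring⟩
  · exact ⟨1 / 2, (1 + th) / 2, by norm_num, fun x => by simp [phi]; ring⟩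
  · exact ⟨-1 / 2, 1 + th, by norm_num, fun x => by simp [phi]; ring⟩

lemma comp_affine (w : List (Fin 5)) :
    ∃ e c : ℝ, |e| = (1 / 2) ^ w.length ∧ ∀ x, comp phi w x = e * x + c := by
  induction w with
  | nil => exact ⟨1, 0, by simp, fun x => by simp [comp]⟩
  | cons i w ih =>
    obtain ⟨e, c, he, h⟩ := ih
    obtain ⟨e', c', he', h'⟩ := phi_affine i
    refine ⟨e' * e, e' * c + c', ?_, fun x => ?_⟩
    · rw [abs_mul, he, he', List.length_cons, pow_succ']
    · simp only [comp, Function.comp_apply]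
      rw [h, h']
      ring

lemma phi_maps (i : Fin 5) {x : ℝ} (hx : x ∈ X) : phi i x ∈ X := by
  have ht := th_pos
  obtain ⟨h1, h2⟩ := hx
  fin_cases i <;> simp only [phi, X, Set.mem_Icc] <;> simp <;> constructor <;> linarith

lemma comp_maps (w : List (Fin 5)) {x : ℝ} (hx : x ∈ X) : comp phi w x ∈ X := by
  induction w with
  | nil => exact hx
  | cons i w ih => exact phi_maps i ih

lemma X_self_similar : X = ⋃ i, phi i '' X := by
  have ht := th_pos
  apply Set.Subset.antisymm
  · intro x hx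
    obtain ⟨h1, h2⟩ := hx
    have hs : th ≤ 1 + th := by linarith
    have hth1 : 1 ≤ th := by
      unfold th
      rw [Real.one_le_sqrt]
      norm_num
    have hth2 : th ≤ 2 := by
      unfold th
      rw [Real.sqrt_le_left (by norm_num)]
      norm_num
    rcases le_total x ((1 + th) / 2) with h | h
    · refine Set.mem_iUnion.mpr ⟨0, 2 * x, ⟨by linarith, by linarith⟩, ?_⟩
      simp [phi]
    · refine Set.mem_iUnion.mpr ⟨3, 2 * x - 1 - th, ⟨by linarith, by linarith⟩, ?_⟩
      simp [phi]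
      ring
  · intro x hx
    obtain ⟨i, y, hy, rfl⟩ := Set.mem_iUnion.mp hx
    exact phi_maps i hy

lemma isIFS : IsIFSWithAttractor phi X := by
  have ht := th_pos
  refine ⟨by norm_num, ?_, ?_, ⟨0, ⟨le_rfl, by linarith⟩⟩, isCompact_Icc, X_self_similar⟩
  · intro i x y hxy
    obtain ⟨e, c, he, h⟩ := phi_affine i
    rw [h, h] at hxy
    have he0 : e ≠ 0 := by
      intro h0
      rw [h0, abs_zero] at he
      norm_num at he
    exact mul_left_cancel₀ he0 (by linarith)
  · intro i
    obtain ⟨e, c, he, h⟩ := phi_affine i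
    refine ⟨1 / 2, by
      rw [← NNReal.coe_lt_coe]
      norm_num, LipschitzWith.of_dist_le_mul fun x y => ?_⟩
    rw [Real.dist_eq, Real.dist_eq, h, h]
    have e1 : e * x + c - (e * y + c) = e * (x - y) := by ring
    rw [e1, abs_mul, he]
    push_cast
    exact le_rfl

lemma diam_ge (w : List (Fin 5)) :
    (1 + th) / 2 ^ w.length ≤ Metric.diam (comp phi w '' X) := by
  have ht := th_pos
  obtain ⟨e, c, he, h⟩ := comp_affine w
  have hb : Bornology.IsBounded (comp phi w '' X) := by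
    have e1 : comp phi w = fun x => e * x + c := funext h
    rw [e1]
    exact (isCompact_Icc.image (by fun_prop)).isBounded
  have h0 : comp phi w 0 ∈ comp phi w '' X := ⟨0, ⟨le_rfl, by linarith⟩, rfl⟩
  have h1 : comp phi w (1 + th) ∈ comp phi w '' X := ⟨1 + th, ⟨by linarith, le_rfl⟩, rfl⟩
  have h2 := Metric.dist_le_diam_of_mem hb h1 h0
  rw [Real.dist_eq, h, h] at h2
  have e2 : e * (1 + th) + c - (e * 0 + c) = e * (1 + th) := by ring
  rw [e2, abs_mul, he, abs_of_pos (by linarith : (0 : ℝ) < 1 + th)] at h2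
  have e3 : (1 + th) / 2 ^ w.length = (1 / 2) ^ w.length * (1 + th) := by
    rw [one_div, inv_pow]
    field_simp
  rw [e3]
  exact h2

lemma diam_le (w : List (Fin 5)) :
    Metric.diam (comp phi w '' X) ≤ (1 + th) / 2 ^ w.length := by
  have ht := th_pos
  obtain ⟨e, c, he, h⟩ := comp_affine w
  have e3 : (1 + th) / 2 ^ w.length = (1 / 2) ^ w.length * (1 + th) := by
    rw [one_div, inv_pow]
    field_simp
  apply Metric.diam_le_of_forall_dist_le (by positivity)
  rintro _ ⟨x, hx, rfl⟩ _ ⟨y, hy, rfl⟩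
  rw [Real.dist_eq, h, h, e3]
  have e2 : e * x + c - (e * y + c) = e * (x - y) := by ring
  rw [e2, abs_mul, he]
  have h4 : |x - y| ≤ 1 + th := by
    obtain ⟨hx1, hx2⟩ := hx
    obtain ⟨hy1, hy2⟩ := hy
    rw [abs_le]
    constructor <;> linarith
  gcongr

/-- Every point `(I + θ J)/2^n` with `0 ≤ I, J < 2^n` is the image of `0` under a word of
length `n`. -/
lemma exists_word (n I J : ℕ) (hI : I < 2 ^ n) (hJ : J < 2 ^ n) :
    ∃ w : List (Fin 5), w.length = n ∧ comp phi w 0 = (I + th * J) / 2 ^ n := by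
  induction n generalizing I J with
  | zero =>
    have h1 : I = 0 := by simpa using hI
    have h2 : J = 0 := by simpa using hJ
    subst h1 h2
    exact ⟨[], rfl, by simp [comp]⟩
  | succ n ih =>
    have hp : 2 ^ (n + 1) = 2 * 2 ^ n := by ring
    rw [hp] at hI hJ
    have key : ∀ K : ℕ, K < 2 * 2 ^ n → ∃ k K' : ℕ, (k = 0 ∨ k = 1) ∧ K' < 2 ^ n ∧
        K = k * 2 ^ n + K' := by
      intro K hK
      rcases lt_or_ge K (2 ^ n) with h | h
      · exact ⟨0, K, Or.inl rfl, h, by ring⟩
      · exact ⟨1, K - 2 ^ n, Or.inr rfl, by omega, by omega⟩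
    obtain ⟨i, I', hi, hI', rfl⟩ := key I hI
    obtain ⟨j, J', hj, hJ', rfl⟩ := key J hJ
    obtain ⟨w, hw, hw2⟩ := ih I' J' hI' hJ'
    have hT : (0 : ℝ) < 2 ^ n := by positivity
    have hgoal : ∀ a b : ℝ, ((I' + th * J') / 2 ^ n + a + th * b) / 2 =
        ((a * 2 ^ n + I') + th * (b * 2 ^ n + J')) / 2 ^ (n + 1) := by
      intro a b
      rw [pow_succ]
      field_simp
      ring
    rcases hi with rfl | rfl <;> rcases hj with rfl | rfl
    · refine ⟨0 :: w, by simp [hw], ?_⟩
      have h := hgoal 0 0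
      simp only [comp, Function.comp_apply, hw2]
      push_cast
      rw [← h]
      simp [phi]
    · refine ⟨2 :: w, by simp [hw], ?_⟩
      have h := hgoal 0 1
      simp only [comp, Function.comp_apply, hw2]
      push_cast
      rw [← h]
      simp [phi]
    · refine ⟨1 :: w, by simp [hw], ?_⟩
      have h := hgoal 1 0
      simp only [comp, Function.comp_apply, hw2]
      push_cast
      rw [← h]
      simp [phi]
    · refine ⟨3 :: w, by simp [hw], ?_⟩
      have h := hgoal 1 1
      simp only [comp, Function.comp_apply, hw2]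
      push_cast
      rw [← h]
      simp [phi]

lemma infinite_of_long {S : Set (List (Fin 5))} (h : ∀ N : ℕ, ∃ w ∈ S, N ≤ w.length) :
    S.Infinite := by
  intro hfin
  obtain ⟨B, hB⟩ := (hfin.image List.length).bddAbove
  obtain ⟨w, hw, hlen⟩ := h (B + 1)
  have := hB ⟨w, hw, rfl⟩
  omega

lemma long_of_infinite {S : Set (List (Fin 5))} (h : S.Infinite) (N : ℕ) :
    ∃ w ∈ S, N ≤ w.length := by
  by_contra hcon
  push Not at hcon
  exact h ((List.finite_length_lt (Fin 5) N).subset fun w hw => hcon w hw)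

lemma subset_W (s : ℝ) (hs : s < 2) : X ⊆ W phi X s 0 := by
  intro x hx
  have ht := th_pos
  obtain ⟨hx0, hx1⟩ := hx
  change Set.Infinite {a | _}
  have hdpos : ∀ w : List (Fin 5), 0 < Metric.diam (comp phi w '' X) := fun w =>
    lt_of_lt_of_le (by positivity) (diam_ge w)
  apply infinite_of_long
  intro N
  rcases eq_or_lt_of_le hx0 with h0 | h0
  · -- the left end point
    obtain ⟨w, hw, hw2⟩ := exists_word N 0 0 (by positivity) (by positivity)
    refine ⟨w, ?_, hw.ge⟩
    change |x - comp phi w 0| ≤ _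
    rw [hw2, ← h0]
    simp only [Nat.cast_zero, mul_zero, add_zero, zero_div, sub_zero, abs_zero]
    exact Real.rpow_nonneg (hdpos w).le _
  rcases eq_or_lt_of_le hx1 with h1 | h1
  · -- the right end point
    obtain ⟨w, hw, hw2⟩ := exists_word N 0 0 (by positivity) (by positivity)
    refine ⟨4 :: w, ?_, by rw [List.length_cons]; omega⟩
    change |x - comp phi (4 :: w) 0| ≤ _
    have e : comp phi (4 :: w) 0 = 1 + th := by
      simp only [comp, Function.comp_apply, hw2]
      simp [phi]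
    rw [e, h1, sub_self, abs_zero]
    exact Real.rpow_nonneg (hdpos _).le _
  · rcases lt_or_ge s 0 with hs0 | hs0
    · -- negative exponents: use the bound with exponent one
      obtain ⟨n, hn, I, J, hI, hJ, hb⟩ :=
        core th ht irrational_sqrt_two x h0 h1 0 (by norm_num) (N + 2)
      obtain ⟨w, hw, hw2⟩ := exists_word n I J hI hJ
      refine ⟨w, ?_, by omega⟩
      change |x - comp phi w 0| ≤ _
      rw [hw2]
      refine hb.trans ?_
      rw [Real.rpow_zero]
      apply Real.one_le_rpow_of_pos_of_le_one_of_nonpos (hdpos w) _ hs0.le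
      refine (diam_le w).trans ?_
      rw [hw, div_le_one (by positivity)]
      have h2 : (2 : ℝ) ^ 2 ≤ 2 ^ n := pow_le_pow_right₀ (by norm_num) (by omega)
      have h3 : th ≤ 2 := by
        unfold th
        rw [Real.sqrt_le_left (by norm_num)]
        norm_num
      linarith
    · obtain ⟨n, hn, I, J, hI, hJ, hb⟩ := core th ht irrational_sqrt_two x h0 h1 s hs N
      obtain ⟨w, hw, hw2⟩ := exists_word n I J hI hJ
      refine ⟨w, ?_, by omega⟩
      change |x - comp phi w 0| ≤ _
      rw [hw2]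
      refine hb.trans ?_
      apply Real.rpow_le_rpow (by positivity) _ hs0
      have h2 := diam_ge w
      rw [hw] at h2
      exact h2

lemma W_subset (s : ℝ) (hs : 0 < s) : W phi X s 0 ⊆ X := by
  intro x hx
  have ht := th_pos
  have hclosed : IsClosed X := isClosed_Icc
  have h0X : (0 : ℝ) ∈ X := ⟨le_rfl, by linarith⟩
  rw [← hclosed.closure_eq, Metric.mem_closure_iff]
  intro ε hε
  have htend : Filter.Tendsto (fun n : ℕ => ((1 + th) / 2 ^ n) ^ s) Filter.atTop (nhds 0) := by
    have h1 : Filter.Tendsto (fun n : ℕ => (1 + th) * (1 / 2 : ℝ) ^ n) Filter.atTop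
        (nhds ((1 + th) * 0)) :=
      (tendsto_pow_atTop_nhds_zero_of_lt_one (by norm_num) (by norm_num)).const_mul _
    rw [mul_zero] at h1
    have h2 := h1.rpow_const (p := s) (Or.inr hs.le)
    rw [Real.zero_rpow hs.ne'] at h2
    refine h2.congr fun n => ?_
    congr 1
    rw [one_div, inv_pow]
    field_simp
  obtain ⟨N, hN⟩ := Filter.eventually_atTop.mp (htend.eventually_lt_const hε)
  obtain ⟨w, hw, hlen⟩ := long_of_infinite hx N
  refine ⟨comp phi w 0, comp_maps w h0X, ?_⟩
  rw [Real.dist_eq]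
  calc |x - comp phi w 0| ≤ Metric.diam (comp phi w '' X) ^ s := hw
    _ ≤ ((1 + th) / 2 ^ w.length) ^ s := Real.rpow_le_rpow Metric.diam_nonneg (diam_le w) hs.le
    _ < ε := hN _ hlen

/-- **There are an IFS on the line with a nontrivial attractor `X` and a point `z ∈ X` such that
`W_s(z) = X` for every `0 < s < 2`**; in particular `W_s(z) = X` for some `s > 1`. -/
theorem result :
    ∃ (l : ℕ) (φ : Fin l → ℝ → ℝ) (X : Set ℝ), IsIFSWithAttractor φ X ∧ X.Nontrivial ∧
      ∃ z ∈ X, ∀ s : ℝ, 0 < s → s < 2 → W φ X s z = X := by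
  have ht := th_pos
  refine ⟨5, phi, X, isIFS, ⟨0, ⟨le_rfl, by linarith⟩, 1 + th, ⟨by linarith, le_rfl⟩, ?_⟩, 0,
    ⟨le_rfl, by linarith⟩, fun s hs0 hs2 => Set.Subset.antisymm (W_subset s hs0) (subset_W s hs2)⟩
  linarith

end Pool.Agent.Results.MP_521650_an.DirichletImprovement
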